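import Mathlib

section

set_option autoImplicit false

namespace Pool.Agent.Lib.MP_44283b_co

/-- Local bipartiteness, phrased with a two-colouring of each neighbourhood. -/
def LB {V : Type} (G : SimpleGraph V) : Prop :=
  ∀ v, ∃ f : V → Bool, ∀ x y, G.Adj v x → G.Adj v y → G.Adj x y → f x ≠ f y

/-- Class adjacency of the ten-vertex pattern. Classes 0..6 are ordinary (a, b, d, e, f, g, s);
7, 8, 9 are the three sparse classes. -/
def E (x y : Fin 10) : Bool :=
  Nat.testBit ((![500, 760, 177, 178, 783, 591, 163, 847, 657, 434] : Fin 10 → ℕ) x) y.val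

/-- Colours: `col u` two-colours the neighbourhood of class `u`. -/
def col (x y : Fin 10) : Bool :=
  Nat.testBit ((![324, 584, 1, 2, 521, 3, 3, 3, 513, 258] : Fin 10 → ℕ) x) y.val

lemma E_symm : ∀ x y : Fin 10, E x y = true → E y x = true := by decide

lemma E_irrefl : ∀ x : Fin 10, E x x = false := by decide

lemma col_ok_bool : ∀ u x y : Fin 10,
    (!(E u x && E u y && E x y && (decide (u < 7) || decide (x < 7) || decide (y < 7)))
      || (col u x != col u y)) = true := by decide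

lemma col_ok (u x y : Fin 10) (h1 : E u x = true) (h2 : E u y = true) (h3 : E x y = true)
    (h4 : u < 7 ∨ x < 7 ∨ y < 7) : col u x ≠ col u y := by
  have h := col_ok_bool u x y
  rw [h1, h2, h3] at h
  have h4' : (decide (u < 7) || decide (x < 7) || decide (y < 7)) = true := by
    rcases h4 with h4 | h4 | h4 <;> simp [h4]
  rw [h4'] at h
  simpa using h

/-- The shift relation between consecutive sparse classes. -/
def Sh {n : ℕ} (p q : Fin 10 × (Fin n × Fin n)) : Prop :=
  ((p.1 = 7 ∧ q.1 = 8) ∨ (p.1 = 8 ∧ q.1 = 9) ∨ (p.1 = 9 ∧ q.1 = 7)) ∧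
    p.2.1 < p.2.2 ∧ p.2.2 = q.2.1 ∧ q.2.1 < q.2.2

/-- The graphs `GH n`. -/
def GH (n : ℕ) : SimpleGraph (Fin 10 × (Fin n × Fin n)) where
  Adj p q := E p.1 q.1 = true ∧ (p.1 < 7 ∨ q.1 < 7 ∨ Sh p q ∨ Sh q p)
  symm := ⟨by
    intro p q h
    exact ⟨E_symm _ _ h.1, by tauto⟩⟩
  loopless := ⟨by
    intro p h
    have := E_irrefl p.1
    rw [this] at h
    exact absurd h.1 (by simp)⟩

lemma sh_next {n : ℕ} {p q : Fin 10 × (Fin n × Fin n)} (h : Sh p q) : p.2.2 < q.2.2 := by
  obtain ⟨-, -, h2, h3⟩ := h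
  rw [h2]; exact h3

lemma no_virtual_triangle {n : ℕ} (u x y : Fin 10 × (Fin n × Fin n))
    (h1 : Sh u x ∨ Sh x u) (h2 : Sh u y ∨ Sh y u) (h3 : Sh x y ∨ Sh y x) : False := by
  rcases h1 with h1 | h1 <;> rcases h2 with h2 | h2 <;> rcases h3 with h3 | h3
  all_goals
    have a1 := sh_next h1
    have a2 := sh_next h2
    have a3 := sh_next h3
    obtain ⟨b1, -, c1, d1⟩ := h1
    obtain ⟨b2, -, c2, d2⟩ := h2
    obtain ⟨b3, -, c3, d3⟩ := h3
    first
      | (exfalso; exact absurd (lt_trans a1 (lt_trans a3 a2)) (lt_irrefl _))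
      | (exfalso; exact absurd (lt_trans a1 (lt_trans a2 a3)) (lt_irrefl _))
      | (rcases b1 with b1 | b1 | b1 <;> rcases b2 with b2 | b2 | b2 <;>
          rcases b3 with b3 | b3 | b3 <;> simp_all)

lemma GH_lb (n : ℕ) : LB (GH n) := by
  intro u
  refine ⟨fun x => col u.1 x.1, ?_⟩
  intro x y hx hy hxy
  by_cases h : u.1 < 7 ∨ x.1 < 7 ∨ y.1 < 7
  · exact col_ok u.1 x.1 y.1 hx.1 hy.1 hxy.1 h
  · exfalso
    have hu : ¬ u.1 < 7 := fun h' => h (Or.inl h')
    have hx' : ¬ x.1 < 7 := fun h' => h (Or.inr (Or.inl h'))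
    have hy' : ¬ y.1 < 7 := fun h' => h (Or.inr (Or.inr h'))
    have s1 : Sh u x ∨ Sh x u := by
      rcases hx.2 with h1 | h1 | h1
      · exact absurd h1 hu
      · exact absurd h1 hx'
      · exact h1
    have s2 : Sh u y ∨ Sh y u := by
      rcases hy.2 with h1 | h1 | h1
      · exact absurd h1 hu
      · exact absurd h1 hy'
      · exact h1
    have s3 : Sh x y ∨ Sh y x := by
      rcases hxy.2 with h1 | h1 | h1
      · exact absurd h1 hx'
      · exact absurd h1 hy'
      · exact h1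
    exact no_virtual_triangle u x y s1 s2 s3

/-- In any map of `Fin n × Fin n` (pairs `i < j`) into a small set two consecutive pairs agree. -/
lemma shift_color {n : ℕ} {C : Type} [Fintype C] [DecidableEq C] (χ : Fin n × Fin n → C)
    (hn : 2 ^ Fintype.card C < n) :
    ∃ x y z : Fin n, x < y ∧ y < z ∧ χ (x, y) = χ (y, z) := by
  by_contra hcon
  push Not at hcon
  let S : Fin n → Finset C := fun y => Finset.univ.filter (fun c => ∃ x, x < y ∧ χ (x, y) = c)
  have hinj : Function.Injective S := by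
    intro y z hyz
    by_contra hne
    wlog hlt : y < z generalizing y z with H
    · exact H hyz.symm (Ne.symm hne) (lt_of_le_of_ne (not_lt.mp hlt) (Ne.symm hne))
    have hmem : χ (y, z) ∈ S z := by
      simp only [S, Finset.mem_filter, Finset.mem_univ, true_and]
      exact ⟨y, hlt, rfl⟩
    rw [← hyz] at hmem
    simp only [S, Finset.mem_filter, Finset.mem_univ, true_and] at hmem
    obtain ⟨x, hx, hxy⟩ := hmem
    exact hcon x y z hx hlt hxy
  have hcard := Fintype.card_le_of_injective S hinj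
  rw [Fintype.card_fin, Fintype.card_finset] at hcard
  omega

/-- A homomorphism from `GH n` to a locally bipartite graph needs a large target. -/
lemma hom_large {n : ℕ} {V : Type} [Fintype V] [DecidableEq V] (Q : SimpleGraph V) (hQ : LB Q)
    (φ : GH n →g Q) : n ≤ 2 ^ (Fintype.card V) ^ 3 := by
  by_contra hcon
  push Not at hcon
  have hc : Fintype.card (V × V × V) = (Fintype.card V) ^ 3 := by
    rw [Fintype.card_prod, Fintype.card_prod]; ring
  obtain ⟨x, y, z, hxy, hyz, hχ⟩ := shift_color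
    (C := V × V × V) (fun p : Fin n × Fin n => (φ (7, p), φ (8, p), φ (9, p)))
    (by rw [hc]; exact hcon)
  simp only [Prod.mk.injEq] at hχ
  obtain ⟨h7, h8, h9⟩ := hχ
  -- the five-wheel
  have e78 : Q.Adj (φ (7, (x, y))) (φ (8, (x, y))) := by
    rw [h8]
    apply φ.map_rel
    refine ⟨(by decide : E 7 8 = true), Or.inr (Or.inr (Or.inl ⟨Or.inl ⟨rfl, rfl⟩, hxy, rfl, hyz⟩))⟩
  have e89 : Q.Adj (φ (8, (x, y))) (φ (9, (x, y))) := by
    rw [h9]
    apply φ.map_rel
    refine ⟨(by decide : E 8 9 = true),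
      Or.inr (Or.inr (Or.inl ⟨Or.inr (Or.inl ⟨rfl, rfl⟩), hxy, rfl, hyz⟩))⟩
  have e97 : Q.Adj (φ (9, (x, y))) (φ (7, (x, y))) := by
    rw [h7]
    apply φ.map_rel
    refine ⟨(by decide : E 9 7 = true),
      Or.inr (Or.inr (Or.inl ⟨Or.inr (Or.inr ⟨rfl, rfl⟩), hxy, rfl, hyz⟩))⟩
  have e70 : Q.Adj (φ (7, (x, y))) (φ (0, (x, y))) := by
    apply φ.map_rel
    exact ⟨(by decide : E 7 0 = true), Or.inr (Or.inl (by decide : (0 : Fin 10) < 7))⟩
  have e71 : Q.Adj (φ (7, (x, y))) (φ (1, (x, y))) := by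
    apply φ.map_rel
    exact ⟨(by decide : E 7 1 = true), Or.inr (Or.inl (by decide : (1 : Fin 10) < 7))⟩
  have e76 : Q.Adj (φ (7, (x, y))) (φ (6, (x, y))) := by
    apply φ.map_rel
    exact ⟨(by decide : E 7 6 = true), Or.inr (Or.inl (by decide : (6 : Fin 10) < 7))⟩
  have e80 : Q.Adj (φ (8, (x, y))) (φ (0, (x, y))) := by
    apply φ.map_rel
    exact ⟨(by decide : E 8 0 = true), Or.inr (Or.inl (by decide : (0 : Fin 10) < 7))⟩
  have e06 : Q.Adj (φ (0, (x, y))) (φ (6, (x, y))) := by
    apply φ.map_rel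
    exact ⟨(by decide : E 0 6 = true), Or.inr (Or.inl (by decide : (6 : Fin 10) < 7))⟩
  have e61 : Q.Adj (φ (6, (x, y))) (φ (1, (x, y))) := by
    apply φ.map_rel
    exact ⟨(by decide : E 6 1 = true), Or.inr (Or.inl (by decide : (1 : Fin 10) < 7))⟩
  have e19 : Q.Adj (φ (1, (x, y))) (φ (9, (x, y))) := by
    apply φ.map_rel
    exact ⟨(by decide : E 1 9 = true), Or.inl (by decide : (1 : Fin 10) < 7)⟩
  obtain ⟨f, hf⟩ := hQ (φ (7, (x, y)))
  have c1 := hf _ _ e78 e70 e80
  have c2 := hf _ _ e70 e76 e06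
  have c3 := hf _ _ e76 e71 e61
  have c4 := hf _ _ e71 e97.symm e19
  have c5 := hf _ _ e97.symm e78 e89.symm
  revert c1 c2 c3 c4 c5
  cases f (φ (7, (x, y))) <;> cases f (φ (8, (x, y))) <;> cases f (φ (9, (x, y))) <;>
    cases f (φ (0, (x, y))) <;> cases f (φ (1, (x, y))) <;> cases f (φ (6, (x, y))) <;> simp

/-- Vertex weights: 300,100,100,100,300,200 on a,b,d,e,f,g and 1 elsewhere. -/
def wt (x : Fin 10) : ℕ := (![300, 100, 100, 100, 300, 200, 1, 1, 1, 1] : Fin 10 → ℕ) x

lemma wt_pos : ∀ x : Fin 10, 0 < wt x := by decide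

lemma wt_total : ∑ x : Fin 10, wt x = 1104 := by decide

lemma wt_deg : ∀ x : Fin 10, 600 ≤ ∑ y : Fin 10, (if E x y = true ∧ y < 7 then wt y else 0) := by
  decide

end Pool.Agent.Lib.MP_44283b_co
end

section

set_option autoImplicit false
open scoped Classical

namespace Pool.Agent.Lib.MP_44283b_co

lemma lb_iff {V : Type} (G : SimpleGraph V) :
    (∀ v : V, (G.induce (G.neighborSet v)).Colorable 2) ↔ LB G := by
  constructor
  · intro h v
    obtain ⟨C⟩ := h v
    refine ⟨fun x => if hx : x ∈ G.neighborSet v then decide (C ⟨x, hx⟩ = 0) else false, ?_⟩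
    intro x y hx hy hxy
    have hx' : x ∈ G.neighborSet v := hx
    have hy' : y ∈ G.neighborSet v := hy
    have hadj : (G.induce (G.neighborSet v)).Adj ⟨x, hx'⟩ ⟨y, hy'⟩ := by
      simpa using hxy
    have hne := C.valid hadj
    simp only [hx', hy', dif_pos]
    intro heq
    apply hne
    have h0 : (C ⟨x, hx'⟩ = 0) ↔ (C ⟨y, hy'⟩ = 0) := by
      simpa using heq
    have hlt1 : (C ⟨x, hx'⟩).val < 2 := (C ⟨x, hx'⟩).isLt
    have hlt2 : (C ⟨y, hy'⟩).val < 2 := (C ⟨y, hy'⟩).isLt
    apply Fin.ext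
    by_cases h1 : C ⟨x, hx'⟩ = 0
    · rw [h1, h0.mp h1]
    · have h2 : C ⟨y, hy'⟩ ≠ 0 := fun h => h1 (h0.mpr h)
      have h1' : (C ⟨x, hx'⟩).val ≠ 0 := fun h => h1 (Fin.ext h)
      have h2' : (C ⟨y, hy'⟩).val ≠ 0 := fun h => h2 (Fin.ext h)
      omega
  · intro h v
    obtain ⟨f, hf⟩ := h v
    have C : (G.induce (G.neighborSet v)).Coloring Bool :=
      SimpleGraph.Coloring.mk (fun x => f x.1) (by
        intro a b hab
        have hab' : G.Adj a.1 b.1 := by simpa using hab
        exact hf a.1 b.1 a.2 b.2 hab')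
    have := C.colorable
    simpa using this

/-- Positive weights for which every neighbourhood weighs more than `c` times the total. -/
def Beats (c : ℝ) {V : Type} [Fintype V] (G : SimpleGraph V) : Prop :=
  ∃ ω : V → ℝ, (∀ v, 0 < ω v) ∧
    ∀ v : V, c * (∑ u, ω u) < ∑ u ∈ Finset.univ.filter (G.Adj v), ω u

lemma Beats.mono {c : ℝ} {V : Type} [Fintype V] {G G' : SimpleGraph V} (h : G ≤ G')
    (hG : Beats c G) : Beats c G' := by
  obtain ⟨ω, hpos, hω⟩ := hG
  refine ⟨ω, hpos, fun v => lt_of_lt_of_le (hω v) ?_⟩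
  apply Finset.sum_le_sum_of_subset_of_nonneg
  · intro u hu
    simp only [Finset.mem_filter, Finset.mem_univ, true_and] at hu ⊢
    exact h hu
  · intro i _ _
    exact (hpos i).le

/-- `GH n` beats `0.54` for `n ≥ 1`. -/
lemma GH_beats (n : ℕ) (hn : 1 ≤ n) : Beats (54 / 100 : ℝ) (GH n) := by
  refine ⟨fun v => (wt v.1 : ℝ), fun v => (Nat.cast_pos.mpr (wt_pos v.1) : (0 : ℝ) < (wt v.1 : ℝ)),
    fun v => ?_⟩
  have htot : (∑ u : Fin 10 × (Fin n × Fin n), (wt u.1 : ℝ)) = 1104 * (n : ℝ) ^ 2 := by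
    rw [Fintype.sum_prod_type]
    simp only [Finset.sum_const, Finset.card_univ, Fintype.card_prod, Fintype.card_fin,
      nsmul_eq_mul]
    rw [← Finset.mul_sum]
    have : (∑ x : Fin 10, (wt x : ℝ)) = 1104 := by exact_mod_cast wt_total
    rw [this]
    push_cast
    ring
  have hdeg : 600 * (n : ℝ) ^ 2 ≤
      ∑ u ∈ Finset.univ.filter ((GH n).Adj v), (wt u.1 : ℝ) := by
    have h1 : (∑ u : Fin 10 × (Fin n × Fin n),
        (if E v.1 u.1 = true ∧ u.1 < 7 then (wt u.1 : ℝ) else 0)) ≤
        ∑ u ∈ Finset.univ.filter ((GH n).Adj v), (wt u.1 : ℝ) := by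
      rw [Finset.sum_filter]
      apply Finset.sum_le_sum
      intro u _
      by_cases hu : E v.1 u.1 = true ∧ u.1 < 7
      · have hadj : (GH n).Adj v u := ⟨hu.1, Or.inr (Or.inl hu.2)⟩
        rw [if_pos hu, if_pos hadj]
      · rw [if_neg hu]
        split_ifs
        · positivity
        · exact le_refl _
    refine le_trans ?_ h1
    rw [Fintype.sum_prod_type]
    simp only [Finset.sum_const, Finset.card_univ, Fintype.card_prod, Fintype.card_fin,
      nsmul_eq_mul]
    rw [← Finset.mul_sum]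
    have h2 := wt_deg v.1
    have h3 : (600 : ℝ) ≤ ∑ y : Fin 10, (if E v.1 y = true ∧ y < 7 then (wt y : ℝ) else 0) := by
      have h4 : ((600 : ℕ) : ℝ) ≤
          ((∑ y : Fin 10, (if E v.1 y = true ∧ y < 7 then wt y else 0) : ℕ) : ℝ) := by
        exact_mod_cast h2
      push_cast at h4
      exact h4
    have hn0 : (0 : ℝ) ≤ ((n * n : ℕ) : ℝ) := by positivity
    calc 600 * (n : ℝ) ^ 2 = ((n * n : ℕ) : ℝ) * 600 := by push_cast; ring
      _ ≤ _ := mul_le_mul_of_nonneg_left h3 hn0
  have hn1 : (1 : ℝ) ≤ (n : ℝ) := by exact_mod_cast hn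
  have hn2 : (0 : ℝ) < (n : ℝ) ^ 2 := by positivity
  rw [htot]
  linarith

/-- The property minimised in the proof. -/
def Good (n : ℕ) {V : Type} [Fintype V] (Q : SimpleGraph V) : Prop :=
  LB Q ∧ Beats (54 / 100 : ℝ) Q ∧ Nonempty (GH n →g Q)

lemma exists_max {n : ℕ} {V : Type} [Fintype V] (Q : SimpleGraph V) (hQ : Good n Q) :
    ∃ Q' : SimpleGraph V, Good n Q' ∧ ∀ Q'' : SimpleGraph V, Q' ≤ Q'' → LB Q'' → Q'' = Q' := by
  have hfin : {R : SimpleGraph V | Good n R}.Finite := Set.toFinite _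
  obtain ⟨Q', hQ', hmax⟩ := hfin.exists_le_maximal (show Q ∈ {R : SimpleGraph V | Good n R} from hQ)
  refine ⟨Q', hmax.prop, ?_⟩
  intro Q'' hle hLB
  have hgood : Good n Q'' := by
    obtain ⟨_, hb, ⟨φ⟩⟩ := hmax.prop
    refine ⟨hLB, hb.mono hle, ⟨⟨fun v => φ v, ?_⟩⟩⟩
    intro a b hab
    exact hle (φ.map_rel hab)
  exact le_antisymm (hmax.le_of_ge hgood hle) hle

/-- Merging two twins keeps the property and lowers the number of vertices. -/
lemma merge_twins {n : ℕ} {V : Type} [Fintype V] (Q : SimpleGraph V) (hQ : Good n Q)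
    (u v : V) (huv : Q.neighborSet u = Q.neighborSet v) (hne : u ≠ v) :
    ∃ (V' : Type) (_ : Fintype V') (Q' : SimpleGraph V'),
      Fintype.card V' < Fintype.card V ∧ Good n Q' := by
  obtain ⟨hLB, ⟨ω, hpos, hω⟩, ⟨φ⟩⟩ := hQ
  have hadj : ∀ x, Q.Adj u x ↔ Q.Adj v x := by
    intro x
    have := Set.ext_iff.mp huv x
    simpa using this
  let V' := {x : V // x ≠ v}
  let Q' : SimpleGraph V' := Q.comap (fun x : V' => x.1)
  refine ⟨V', inferInstance, Q', ?_, ?_, ?_, ?_⟩
  · exact Fintype.card_subtype_lt (x := v) (by simp)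
  · intro x
    obtain ⟨f, hf⟩ := hLB x.1
    exact ⟨fun y => f y.1, fun a b ha hb hab => hf a.1 b.1 ha hb hab⟩
  · refine ⟨fun x => if x.1 = u then ω u + ω v else ω x.1, ?_, ?_⟩
    · intro x
      dsimp only
      split_ifs
      · have := hpos u; have := hpos v; linarith
      · exact hpos _
    · intro x
      -- general summation identity
      have key : ∀ p : V → Prop, (p u ↔ p v) →
          (∑ y : V', if p y.1 then (if y.1 = u then ω u + ω v else ω y.1) else 0)
            = ∑ y : V, if p y then ω y else 0 := by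
        intro p hp
        have h1 : (∑ y : V, if p y then ω y else 0)
            = (if p v then ω v else 0) + ∑ y ∈ Finset.univ.erase v, (if p y then ω y else 0) := by
          exact (Finset.add_sum_erase Finset.univ (fun y => if p y then ω y else 0)
            (Finset.mem_univ v)).symm
        have h2 : (∑ y : V', if p y.1 then (if y.1 = u then ω u + ω v else ω y.1) else 0)
            = ∑ y ∈ Finset.univ.erase v,
              (if p y then (if y = u then ω u + ω v else ω y) else 0) := by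
          have : (Finset.univ.erase v : Finset V) = Finset.univ.filter (fun x => x ≠ v) := by
            ext z; simp
          rw [this]
          rw [← Finset.sum_subtype_eq_sum_filter]
          simp only [V', Finset.subtype_univ]
        have h3 : ∑ y ∈ Finset.univ.erase v,
              (if p y then (if y = u then ω u + ω v else ω y) else 0)
            = ∑ y ∈ Finset.univ.erase v, ((if p y then ω y else 0)
                + (if y = u then (if p u then ω v else 0) else 0)) := by
          apply Finset.sum_congr rfl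
          intro y _
          by_cases hy : y = u
          · subst hy
            by_cases hpy : p y <;> simp [hpy]
          · simp [hy]
        rw [h2, h3, Finset.sum_add_distrib, h1]
        have h4 : ∑ y ∈ Finset.univ.erase v, (if y = u then (if p u then ω v else 0) else 0)
            = (if p u then ω v else 0) := by
          rw [Finset.sum_ite_eq' (Finset.univ.erase v) u]
          simp [hne]
        rw [h4]
        by_cases hpu : p u
        · have hpv : p v := hp.mp hpu
          simp only [hpu, hpv, if_true]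
          ring
        · have hpv : ¬ p v := fun h => hpu (hp.mpr h)
          simp [hpu, hpv]
      have hsum : (∑ y : V', (if y.1 = u then ω u + ω v else ω y.1)) = ∑ y : V, ω y := by
        have := key (fun _ => True) Iff.rfl
        simpa using this
      have hdeg : ∑ y ∈ Finset.univ.filter (Q'.Adj x), (if y.1 = u then ω u + ω v else ω y.1)
          = ∑ y ∈ Finset.univ.filter (Q.Adj x.1), ω y := by
        rw [Finset.sum_filter, Finset.sum_filter]
        have hp : Q.Adj x.1 u ↔ Q.Adj x.1 v := by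
          rw [Q.adj_comm x.1 u, Q.adj_comm x.1 v]; exact hadj x.1
        exact key (fun y => Q.Adj x.1 y) hp
      have hfin := hω x.1
      rw [← hsum, ← hdeg] at hfin
      convert hfin using 3
  · refine ⟨⟨fun y => if hy : φ y = v then ⟨u, hne⟩ else ⟨φ y, hy⟩, ?_⟩⟩
    intro a b hab
    have h := φ.map_rel hab
    show Q.Adj _ _
    dsimp only
    by_cases ha : φ a = v <;> by_cases hb : φ b = v
    · exfalso
      rw [ha, hb] at h
      exact Q.loopless.irrefl v h
    · rw [dif_pos ha, dif_neg hb]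
      rw [ha] at h
      exact (hadj _).mpr h
    · rw [dif_neg ha, dif_pos hb]
      rw [hb] at h
      exact ((hadj _).mpr h.symm).symm
    · rw [dif_neg ha, dif_neg hb]
      exact h

theorem main (N : ℕ) : ∃ (V : Type) (_ : Fintype V) (G : SimpleGraph V),
    LB G ∧ (∀ G' : SimpleGraph V, G ≤ G' → LB G' → G' = G) ∧
    (∀ u v : V, G.neighborSet u = G.neighborSet v → u = v) ∧
    Beats (54 / 100 : ℝ) G ∧ N < Fintype.card V := by
  let n := 2 ^ N ^ 3 + 1
  let P : ℕ → Prop := fun k => ∃ (V : Type) (_ : Fintype V) (Q : SimpleGraph V),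
    Fintype.card V = k ∧ Good n Q
  have hn1 : 1 ≤ n := Nat.le_add_left 1 _
  have hex : ∃ k, P k := ⟨_, Fin 10 × (Fin n × Fin n), inferInstance, GH n, rfl, GH_lb n,
    GH_beats n hn1, ⟨SimpleGraph.Hom.id⟩⟩
  obtain ⟨V, hV, Q, hcard, hgood⟩ := Nat.find_spec hex
  obtain ⟨Q', hgood', hmax⟩ := exists_max Q hgood
  refine ⟨V, hV, Q', hgood'.1, hmax, ?_, hgood'.2.1, ?_⟩
  · intro u v huv
    by_contra hne
    obtain ⟨V', hV', Q'', hlt, hgood''⟩ := merge_twins Q' hgood' u v huv hne
    have := Nat.find_min hex (m := Fintype.card V') (by rw [← hcard]; exact hlt)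
    exact this ⟨V', hV', Q'', rfl, hgood''⟩
  · by_contra hle
    push Not at hle
    obtain ⟨φ⟩ := hgood'.2.2
    have h1 := hom_large Q' hgood'.1 φ
    have h2 : 2 ^ (Fintype.card V) ^ 3 ≤ 2 ^ N ^ 3 :=
      Nat.pow_le_pow_right (by norm_num) (Nat.pow_le_pow_left hle 3)
    have h3 : n = 2 ^ N ^ 3 + 1 := rfl
    have h4 := le_trans h1 h2
    rw [h3] at h4
    exact absurd h4 (by simp)

end Pool.Agent.Lib.MP_44283b_co
end
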